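import Mathlib

set_option autoImplicit false
set_option linter.unusedSectionVars false

namespace Pool.Agent.Helper24.HalfW

open Finset

variable {ι : Type} [Fintype ι] [DecidableEq ι]

/-- The `i`-th coordinate: `+1` if `i ∈ A`, `-1` otherwise. -/
noncomputable def xc (i : ι) (A : Finset ι) : ℝ := if i ∈ A then 1 else -1

/-- The expectation on the uniform cube. -/
noncomputable def EE (F : Finset ι → ℝ) : ℝ := (∑ A, F A) / 2 ^ (Fintype.card ι)

/-- Walsh character. -/
noncomputable def chi (T A : Finset ι) : ℝ := ∏ i ∈ T, xc i A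

/-- Fourier coefficient. -/
noncomputable def fh (F : Finset ι → ℝ) (T : Finset ι) : ℝ := EE (fun A => F A * chi T A)

/-- `max (0, max_{i ∈ T} c i)` -/
noncomputable def mx (c : ι → ℝ) (T : Finset ι) : ℝ := T.fold max 0 c

/-- The functional `Σ_T F̂(T)² max_{i∈T} c_i`. -/
noncomputable def Phi (c : ι → ℝ) (F : Finset ι → ℝ) : ℝ := ∑ T, (fh F T) ^ 2 * mx c T

lemma EE_add (F G : Finset ι → ℝ) : EE (fun A => F A + G A) = EE F + EE G := by
  unfold EE; rw [Finset.sum_add_distrib, add_div]

lemma EE_sub (F G : Finset ι → ℝ) : EE (fun A => F A - G A) = EE F - EE G := by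
  unfold EE; rw [Finset.sum_sub_distrib, sub_div]

lemma EE_mul_left (a : ℝ) (F : Finset ι → ℝ) : EE (fun A => a * F A) = a * EE F := by
  unfold EE; rw [← Finset.mul_sum, mul_div_assoc]

lemma EE_const (a : ℝ) : EE (fun _ : Finset ι => a) = a := by
  unfold EE
  simp [Finset.sum_const, Finset.card_univ, Fintype.card_finset]

lemma EE_congr {F G : Finset ι → ℝ} (h : ∀ A, F A = G A) : EE F = EE G := by
  unfold EE; rw [Finset.sum_congr rfl (fun A _ => h A)]

lemma EE_nonneg {F : Finset ι → ℝ} (h : ∀ A, 0 ≤ F A) : 0 ≤ EE F := by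
  unfold EE; exact div_nonneg (Finset.sum_nonneg (fun A _ => h A)) (by positivity)

lemma EE_mono {F G : Finset ι → ℝ} (h : ∀ A, F A ≤ G A) : EE F ≤ EE G := by
  unfold EE
  exact div_le_div_of_nonneg_right (Finset.sum_le_sum (fun A _ => h A)) (by positivity)

/-- flip the coordinate `m` -/
def flip (m : ι) (A : Finset ι) : Finset ι := if m ∈ A then A.erase m else insert m A

lemma flip_flip (m : ι) (A : Finset ι) : flip m (flip m A) = A := by
  unfold flip
  by_cases h : m ∈ A
  · simp [h, Finset.insert_erase h]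
  · simp [h, Finset.erase_insert h]

lemma sum_flip (m : ι) (G : Finset ι → ℝ) :
    ∑ A : Finset ι, G (flip m A) = ∑ A : Finset ι, G A := by
  refine Finset.sum_nbij' (fun A => flip m A) (fun A => flip m A) ?_ ?_ ?_ ?_ ?_ <;>
    simp [flip_flip]

lemma EE_split (m : ι) (G : Finset ι → ℝ) :
    EE G = (EE (fun A => G (insert m A)) + EE (fun A => G (A.erase m))) / 2 := by
  have h1 : ∑ A : Finset ι, G A + ∑ A : Finset ι, G (flip m A) =
      ∑ A : Finset ι, G (insert m A) + ∑ A : Finset ι, G (A.erase m) := by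
    rw [← Finset.sum_add_distrib, ← Finset.sum_add_distrib]
    refine Finset.sum_congr rfl (fun A _ => ?_)
    unfold flip
    by_cases h : m ∈ A
    · simp [h]
    · simp [h, add_comm]
  rw [sum_flip] at h1
  unfold EE
  have h2 : (0:ℝ) < 2 ^ (Fintype.card ι) := by positivity
  field_simp
  linarith

lemma xc_insert_self (m : ι) (A : Finset ι) : xc m (insert m A) = 1 := by simp [xc]

lemma xc_erase_self (m : ι) (A : Finset ι) : xc m (A.erase m) = -1 := by simp [xc]

lemma xc_insert_ne {m i : ι} (h : i ≠ m) (A : Finset ι) : xc i (insert m A) = xc i A := by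
  simp [xc, h]

lemma xc_erase_ne {m i : ι} (h : i ≠ m) (A : Finset ι) : xc i (A.erase m) = xc i A := by
  simp [xc, h]

lemma chi_insert_notMem {m : ι} {T : Finset ι} (h : m ∉ T) (A : Finset ι) :
    chi T (insert m A) = chi T A := by
  unfold chi
  refine Finset.prod_congr rfl (fun i hi => xc_insert_ne ?_ A)
  rintro rfl; exact h hi

lemma chi_erase_notMem {m : ι} {T : Finset ι} (h : m ∉ T) (A : Finset ι) :
    chi T (A.erase m) = chi T A := by
  unfold chi
  refine Finset.prod_congr rfl (fun i hi => xc_erase_ne ?_ A)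
  rintro rfl; exact h hi

lemma chi_insert_mem {m : ι} {T : Finset ι} (h : m ∈ T) (A : Finset ι) :
    chi T (insert m A) = chi (T.erase m) A := by
  rw [← chi_insert_notMem (Finset.notMem_erase m T) A]
  unfold chi
  rw [← Finset.mul_prod_erase T _ h, xc_insert_self, one_mul]

lemma chi_erase_mem {m : ι} {T : Finset ι} (h : m ∈ T) (A : Finset ι) :
    chi T (A.erase m) = - chi (T.erase m) A := by
  rw [← chi_erase_notMem (Finset.notMem_erase m T) A]
  unfold chi
  rw [← Finset.mul_prod_erase T _ h, xc_erase_self, neg_one_mul]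

lemma chi_singleton (i : ι) (A : Finset ι) : chi {i} A = xc i A := by simp [chi]

lemma chi_empty (A : Finset ι) : chi ∅ A = 1 := by simp [chi]

lemma fh_add (F G : Finset ι → ℝ) (T : Finset ι) : fh (fun A => F A + G A) T = fh F T + fh G T := by
  unfold fh
  rw [← EE_add]; exact EE_congr (fun A => by ring)

lemma fh_sub (F G : Finset ι → ℝ) (T : Finset ι) : fh (fun A => F A - G A) T = fh F T - fh G T := by
  unfold fh
  rw [← EE_sub]; exact EE_congr (fun A => by ring)

lemma fh_mul_left (a : ℝ) (F : Finset ι → ℝ) (T : Finset ι) :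
    fh (fun A => a * F A) T = a * fh F T := by
  unfold fh
  rw [← EE_mul_left]; exact EE_congr (fun A => by ring)

lemma fh_empty (F : Finset ι → ℝ) : fh F ∅ = EE F := by
  unfold fh; exact EE_congr (fun A => by rw [chi_empty, mul_one])

/-- Fourier coefficient via slices, `m ∉ T`. -/
lemma fh_notMem {m : ι} {T : Finset ι} (h : m ∉ T) (F : Finset ι → ℝ) :
    fh F T = (fh (fun A => F (insert m A)) T + fh (fun A => F (A.erase m)) T) / 2 := by
  unfold fh
  rw [EE_split m]
  simp only [chi_insert_notMem h, chi_erase_notMem h]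

lemma fh_mem {m : ι} {T : Finset ι} (h : m ∈ T) (F : Finset ι → ℝ) :
    fh F T = (fh (fun A => F (insert m A)) (T.erase m)
      - fh (fun A => F (A.erase m)) (T.erase m)) / 2 := by
  unfold fh
  rw [EE_split m]
  simp only [chi_insert_mem h, chi_erase_mem h]
  have : EE (fun A => F (A.erase m) * -chi (T.erase m) A)
      = - EE (fun A => F (A.erase m) * chi (T.erase m) A) := by
    rw [← neg_one_mul (EE _), ← EE_mul_left]; exact EE_congr (fun A => by ring)
  rw [this]; ring

/-- product kernel -/
lemma sum_powerset_chi (R A B : Finset ι) :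
    ∑ T ∈ R.powerset, chi T A * chi T B = ∏ i ∈ R, (1 + xc i A * xc i B) := by
  rw [Finset.prod_one_add]
  refine Finset.sum_congr rfl (fun T _ => ?_)
  unfold chi
  rw [Finset.prod_mul_distrib]

lemma bil_eq (R : Finset ι) (F G : Finset ι → ℝ) :
    ∑ T ∈ R.powerset, fh F T * fh G T =
      (∑ A, ∑ B, F A * G B * ∏ i ∈ R, (1 + xc i A * xc i B)) /
        (2 ^ (Fintype.card ι) * 2 ^ (Fintype.card ι)) := by
  unfold fh EE
  have : ∀ T : Finset ι, (∑ A, F A * chi T A) / 2 ^ (Fintype.card ι) *
      ((∑ A, G A * chi T A) / 2 ^ (Fintype.card ι)) =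
      (∑ A, ∑ B, F A * G B * (chi T A * chi T B)) /
        (2 ^ (Fintype.card ι) * 2 ^ (Fintype.card ι)) := by
    intro T
    rw [div_mul_div_comm, Finset.sum_mul_sum]
    congr 1
    refine Finset.sum_congr rfl (fun A _ => Finset.sum_congr rfl (fun B _ => by ring))
  simp only [this]
  rw [← Finset.sum_div, Finset.sum_comm]
  congr 1
  refine Finset.sum_congr rfl (fun A _ => ?_)
  rw [Finset.sum_comm]
  refine Finset.sum_congr rfl (fun B _ => ?_)
  rw [← Finset.mul_sum, sum_powerset_chi]

lemma bil_nonneg (R : Finset ι) (F G : Finset ι → ℝ) (hF : ∀ A, 0 ≤ F A) (hG : ∀ A, 0 ≤ G A) :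
    0 ≤ ∑ T ∈ R.powerset, fh F T * fh G T := by
  rw [bil_eq]
  refine div_nonneg (Finset.sum_nonneg (fun A _ => Finset.sum_nonneg (fun B _ => ?_))) (by positivity)
  refine mul_nonneg (mul_nonneg (hF A) (hG B)) (Finset.prod_nonneg (fun i _ => ?_))
  unfold xc
  split_ifs <;> norm_num

/-- Parseval. -/
lemma parseval (F G : Finset ι → ℝ) :
    ∑ T, fh F T * fh G T = EE (fun A => F A * G A) := by
  have h := bil_eq (Finset.univ) F G
  rw [Finset.powerset_univ] at h
  rw [h]
  have h2 : ∀ A B : Finset ι, (∏ i, (1 + xc i A * xc i B)) =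
      if A = B then (2:ℝ) ^ (Fintype.card ι) else 0 := by
    intro A B
    split_ifs with hAB
    · subst hAB
      rw [← Finset.card_univ, ← Finset.prod_const]
      refine Finset.prod_congr rfl (fun i _ => ?_)
      unfold xc; split_ifs <;> norm_num
    · have : ∃ i, ¬ (i ∈ A ↔ i ∈ B) := by
        by_contra hcon
        push Not at hcon
        exact hAB (Finset.ext hcon)
      obtain ⟨i, hi⟩ := this
      refine Finset.prod_eq_zero (Finset.mem_univ i) ?_
      unfold xc
      by_cases h1 : i ∈ A <;> by_cases h2 : i ∈ B <;> simp_all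
  simp only [h2]
  unfold EE
  have h3 : ∀ A : Finset ι, ∑ B, F A * G B * (if A = B then (2:ℝ) ^ (Fintype.card ι) else 0)
      = F A * G A * 2 ^ (Fintype.card ι) := by
    intro A
    simp
  simp only [h3]
  rw [← Finset.sum_mul]
  have h4 : (0:ℝ) < 2 ^ (Fintype.card ι) := by positivity
  field_simp

lemma fh_one (T : Finset ι) : fh (fun _ => (1:ℝ)) T = if T = ∅ then 1 else 0 := by
  split_ifs with h
  · subst h; rw [fh_empty, EE_const]
  · obtain ⟨m, hm⟩ := Finset.nonempty_iff_ne_empty.mpr h
    rw [fh_mem hm]; simp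

/-- the bilinear form against a constant -/
lemma bil_one (R : Finset ι) (F : Finset ι → ℝ) :
    ∑ T ∈ R.powerset, fh F T * fh (fun _ => (1:ℝ)) T = EE F := by
  simp only [fh_one]
  simp [fh_empty]


/-! ### The maximum functional -/

lemma mx_le {c : ι → ℝ} {T : Finset ι} {a : ℝ} : mx c T ≤ a ↔ 0 ≤ a ∧ ∀ i ∈ T, c i ≤ a := by
  unfold mx; rw [Finset.fold_max_le]

lemma mx_nonneg (c : ι → ℝ) (T : Finset ι) : 0 ≤ mx c T := (mx_le.mp le_rfl).1

lemma le_mx (c : ι → ℝ) {T : Finset ι} {i : ι} (h : i ∈ T) : c i ≤ mx c T :=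
  (mx_le.mp le_rfl).2 i h

lemma mx_congr {c c' : ι → ℝ} {T : Finset ι} (h : ∀ i ∈ T, c i = c' i) : mx c T = mx c' T := by
  apply le_antisymm
  · exact mx_le.mpr ⟨mx_nonneg _ _, fun i hi => by rw [h i hi]; exact le_mx c' hi⟩
  · exact mx_le.mpr ⟨mx_nonneg _ _, fun i hi => by rw [← h i hi]; exact le_mx c hi⟩

lemma mx_eq_of_max {c : ι → ℝ} {T : Finset ι} {m : ι} (hm : m ∈ T) (h0 : 0 ≤ c m)
    (h : ∀ i, c i ≤ c m) : mx c T = c m :=
  le_antisymm (mx_le.mpr ⟨h0, fun i _ => h i⟩) (le_mx c hm)

/-- layer decomposition: a sequence `q` all of whose sums over `{T : T ⊄ R}` are nonnegative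
pairs nonnegatively with every `max`. -/
lemma layer (q : Finset ι → ℝ) (hq : ∀ R : Finset ι, 0 ≤ ∑ T with ¬ T ⊆ R, q T) :
    ∀ (k : ℕ) (c : ι → ℝ), (∀ i, 0 ≤ c i) → (univ.filter (fun i => 0 < c i)).card ≤ k →
      0 ≤ ∑ T, q T * mx c T := by
  intro k
  induction k with
  | zero =>
    intro c hc hk
    have h0 : ∀ i, c i = 0 := by
      intro i
      by_contra hne
      have : i ∈ univ.filter (fun i => 0 < c i) := by
        simp [lt_of_le_of_ne (hc i) (Ne.symm hne)]
      have h2 := Finset.card_pos.mpr ⟨i, this⟩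
      omega
    have : ∀ T, mx c T = 0 := by
      intro T
      exact le_antisymm (mx_le.mpr ⟨le_rfl, fun i _ => (h0 i).le⟩) (mx_nonneg _ _)
    simp [this]
  | succ k ih =>
    intro c hc hk
    by_cases hne : (univ.filter (fun i => 0 < c i)).Nonempty
    swap
    · apply ih c hc
      rw [Finset.not_nonempty_iff_eq_empty.mp hne]; simp
    obtain ⟨j, hj, hjmin⟩ := Finset.exists_min_image _ c hne
    have hjpos : 0 < c j := by simpa using hj
    set R : Finset ι := univ.filter (fun i => ¬ 0 < c i) with hR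
    set c' : ι → ℝ := fun i => if 0 < c i then c i - c j else 0 with hc'
    have hc'0 : ∀ i, 0 ≤ c' i := by
      intro i
      simp only [hc']
      split_ifs with h
      · have := hjmin i (by simpa using h); linarith
      · exact le_rfl
    have hcard : (univ.filter (fun i => 0 < c' i)).card ≤ k := by
      have hss : (univ.filter (fun i => 0 < c' i)) ⊂ (univ.filter (fun i => 0 < c i)) := by
        rw [Finset.ssubset_iff_of_subset]
        · refine ⟨j, hj, ?_⟩
          simp [hc', hjpos]
        · intro i hi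
          simp only [Finset.mem_filter, Finset.mem_univ, true_and, hc'] at hi ⊢
          by_contra h
          simp [h] at hi
      have := Finset.card_lt_card hss
      omega
    have key : ∀ T, mx c T = mx c' T + (if ¬ T ⊆ R then c j else 0) := by
      intro T
      split_ifs with h
      · have hT0 : mx c T = 0 := by
          refine le_antisymm (mx_le.mpr ⟨le_rfl, fun i hi => ?_⟩) (mx_nonneg _ _)
          have := h hi
          simp only [hR, Finset.mem_filter, Finset.mem_univ, true_and, not_lt] at this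
          exact this
        have hT1 : mx c' T = 0 := by
          refine le_antisymm (mx_le.mpr ⟨le_rfl, fun i hi => ?_⟩) (mx_nonneg _ _)
          have := h hi
          simp only [hR, Finset.mem_filter, Finset.mem_univ, true_and] at this
          simp [hc', this]
        rw [hT0, hT1, add_zero]
      · rw [Finset.not_subset] at h
        obtain ⟨i0, hi0, hi0R⟩ := h
        have hi0pos : 0 < c i0 := by
          simpa [hR] using hi0R
        apply le_antisymm
        · refine mx_le.mpr ⟨add_nonneg (mx_nonneg _ _) hjpos.le, fun i hi => ?_⟩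
          by_cases hi2 : 0 < c i
          · have := le_mx c' hi
            simp only [hc', if_pos hi2] at this
            linarith
          · have := mx_nonneg c' T
            linarith [not_lt.mp hi2]
        · have : mx c' T ≤ mx c T - c j := by
            refine mx_le.mpr ⟨?_, fun i hi => ?_⟩
            · have h1 := le_mx c hi0
              have h2 := hjmin i0 (by simpa using hi0pos)
              linarith
            · simp only [hc']
              split_ifs with h
              · linarith [le_mx c hi]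
              · have h1 := le_mx c hi0
                have h2 := hjmin i0 (by simpa using hi0pos)
                linarith
          linarith
    have e1 : ∑ T, q T * mx c T = ∑ T, q T * mx c' T + c j * ∑ T with ¬ T ⊆ R, q T := by
      rw [Finset.sum_filter, Finset.mul_sum, ← Finset.sum_add_distrib]
      refine Finset.sum_congr rfl (fun T _ => ?_)
      rw [key T]
      split_ifs <;> ring
    rw [e1]
    exact add_nonneg (ih c' hc'0 hcard) (mul_nonneg hjpos.le (hq R))

lemma layer' (q : Finset ι → ℝ) (hq : ∀ R : Finset ι, 0 ≤ ∑ T with ¬ T ⊆ R, q T)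
    (c : ι → ℝ) (hc : ∀ i, 0 ≤ c i) : 0 ≤ ∑ T, q T * mx c T :=
  layer q hq _ c hc le_rfl

/-- If `d ≥ 0`, `e ≥ 0` pointwise and `d * e = 0` pointwise then
`Σ_T d̂(T) (1 - e)^(T) max_T c ≥ 0`. -/
lemma pair_nonneg (d e : Finset ι → ℝ) (hd : ∀ A, 0 ≤ d A) (he : ∀ A, 0 ≤ e A)
    (hde : ∀ A, d A * e A = 0) (c : ι → ℝ) (hc : ∀ i, 0 ≤ c i) :
    0 ≤ ∑ T, (fh d T * fh (fun A => 1 - e A) T) * mx c T := by
  refine layer' _ (fun R => ?_) c hc
  have h1 : ∑ T, fh d T * fh (fun A => 1 - e A) T = EE d := by
    rw [parseval]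
    refine EE_congr (fun A => ?_)
    have := hde A
    linear_combination -this
  have h2 : ∑ T ∈ R.powerset, fh d T * fh (fun A => 1 - e A) T
      = EE d - ∑ T ∈ R.powerset, fh d T * fh e T := by
    rw [← bil_one R d, ← Finset.sum_sub_distrib]
    refine Finset.sum_congr rfl (fun T _ => ?_)
    rw [fh_sub]; ring
  have h3 : ∑ T, fh d T * fh (fun A => 1 - e A) T =
      ∑ T ∈ R.powerset, fh d T * fh (fun A => 1 - e A) T +
      ∑ T with ¬ T ⊆ R, fh d T * fh (fun A => 1 - e A) T := by
    rw [← Finset.sum_filter_add_sum_filter_not Finset.univ (fun T => T ⊆ R)]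
    congr 1
    refine Finset.sum_congr ?_ (fun _ _ => rfl)
    ext T; simp
  have h4 := bil_nonneg R d e hd he
  linarith

/-- increasing, in the order of inclusion -/
def Inc (F : Finset ι → ℝ) : Prop := ∀ A B, A ⊆ B → F A ≤ F B

lemma inc_slice (F : Finset ι → ℝ) (hF : Inc F) (m : ι) (A : Finset ι) :
    F (A.erase m) ≤ F (insert m A) :=
  hF _ _ ((Finset.erase_subset m A).trans (Finset.subset_insert m A))

/-- degree one coefficient -/
noncomputable def uh (u : Finset ι → ℝ) (i : ι) : ℝ := fh u {i}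

lemma uh_eq (u : Finset ι → ℝ) (m : ι) :
    uh u m = (EE (fun A => u (insert m A)) - EE (fun A => u (A.erase m))) / 2 := by
  unfold uh
  rw [fh_mem (Finset.mem_singleton_self m)]
  have : ({m} : Finset ι).erase m = ∅ := by simp
  rw [this, fh_empty, fh_empty]

lemma uh_nonneg {u : Finset ι → ℝ} (hu : Inc u) (m : ι) : 0 ≤ uh u m := by
  rw [uh_eq]
  have := EE_mono (fun A => inc_slice u hu m A)
  linarith

lemma uh_slice_ne (u : Finset ι → ℝ) {m i : ι} (h : i ≠ m) :
    uh u i = (uh (fun A => u (insert m A)) i + uh (fun A => u (A.erase m)) i) / 2 := by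
  unfold uh
  rw [fh_notMem (m := m)]
  simp [Ne.symm h]

lemma Phi_convex (F : Finset ι → ℝ) (c1 c2 c : ι → ℝ) (h : ∀ i, c i ≤ (c1 i + c2 i) / 2) :
    Phi c F ≤ (Phi c1 F + Phi c2 F) / 2 := by
  have : ∀ T, (fh F T) ^ 2 * mx c T ≤ ((fh F T) ^ 2 * mx c1 T + (fh F T) ^ 2 * mx c2 T) / 2 := by
    intro T
    have h1 : mx c T ≤ (mx c1 T + mx c2 T) / 2 := by
      refine mx_le.mpr ⟨?_, fun i hi => ?_⟩
      · have := mx_nonneg c1 T; have := mx_nonneg c2 T; linarith
      · have := le_mx c1 hi; have := le_mx c2 hi; linarith [h i]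
    nlinarith [sq_nonneg (fh F T)]
  calc Phi c F ≤ ∑ T, ((fh F T) ^ 2 * mx c1 T + (fh F T) ^ 2 * mx c2 T) / 2 :=
        Finset.sum_le_sum (fun T _ => this T)
    _ = (Phi c1 F + Phi c2 F) / 2 := by
        unfold Phi; rw [← Finset.sum_div, Finset.sum_add_distrib]


lemma ins_er (i : ι) (A : Finset ι) : insert i (A.erase i) = insert i A := by
  ext j
  by_cases h : j = i <;> simp [h]

lemma er_ins (i : ι) (A : Finset ι) : (insert i A).erase i = A.erase i := by
  ext j
  by_cases h : j = i <;> simp [h]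

lemma aux1 {p m : ℝ} (hp : p = 1 ∨ p = -1) (hm : m = 1 ∨ m = -1) (h : m ≤ p) :
    (p - m) / 2 * (1 - p) = 0 := by
  rcases hp with rfl | rfl <;> rcases hm with rfl | rfl <;> first | (norm_num; done) | (exfalso; norm_num at h; done)

lemma aux2 {p m : ℝ} (hp : p = 1 ∨ p = -1) (hm : m = 1 ∨ m = -1) (h : m ≤ p) :
    (p - m) / 2 * (1 + m) = 0 := by
  rcases hp with rfl | rfl <;> rcases hm with rfl | rfl <;> first | (norm_num; done) | (exfalso; norm_num at h; done)

lemma aux3 {p m : ℝ} (hp : p = 1 ∨ p = -1) (hm : m = 1 ∨ m = -1) (h : m ≤ p) :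
    (p + m) / 2 * ((p + m) / 2) = 1 - (p - m) / 2 := by
  rcases hp with rfl | rfl <;> rcases hm with rfl | rfl <;> first | (norm_num; done) | (exfalso; norm_num at h; done)

/-- `F` only depends on the coordinates in `S` -/
def Dep (S : Finset ι) (F : Finset ι → ℝ) : Prop := ∀ i, i ∉ S → ∀ A, F (insert i A) = F (A.erase i)

/-- upper slice -/
def sp (m : ι) (F : Finset ι → ℝ) : Finset ι → ℝ := fun A => F (insert m A)
/-- lower slice -/
def sm (m : ι) (F : Finset ι → ℝ) : Finset ι → ℝ := fun A => F (A.erase m)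

lemma dep_sp {S : Finset ι} {F : Finset ι → ℝ} (h : Dep S F) (m : ι) : Dep (S.erase m) (sp m F) := by
  intro i hi A
  unfold sp
  by_cases him : i = m
  · subst him
    rw [ins_er]; simp
  · have hiS : i ∉ S := fun h' => hi (Finset.mem_erase.mpr ⟨him, h'⟩)
    rw [Finset.insert_comm, h i hiS, Finset.erase_insert_of_ne (Ne.symm him)]

lemma dep_sm {S : Finset ι} {F : Finset ι → ℝ} (h : Dep S F) (m : ι) : Dep (S.erase m) (sm m F) := by
  intro i hi A
  unfold sm
  by_cases him : i = m
  · subst him
    simp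
  · have hiS : i ∉ S := fun h' => hi (Finset.mem_erase.mpr ⟨him, h'⟩)
    rw [Finset.erase_insert_of_ne him, h i hiS, Finset.erase_right_comm]

lemma inc_sp {F : Finset ι → ℝ} (h : Inc F) (m : ι) : Inc (sp m F) :=
  fun _ _ hAB => h _ _ (Finset.insert_subset_insert m hAB)

lemma inc_sm {F : Finset ι → ℝ} (h : Inc F) (m : ι) : Inc (sm m F) :=
  fun _ _ hAB => h _ _ (Finset.erase_subset_erase m hAB)

lemma dep_empty {F : Finset ι → ℝ} (h : Dep ∅ F) (A : Finset ι) : F A = F ∅ := by
  induction A using Finset.induction_on with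
  | empty => rfl
  | insert a s ha ih =>
    rw [h a (by simp), Finset.erase_eq_of_notMem ha, ih]

lemma uh_dep {S : Finset ι} {u : Finset ι → ℝ} (h : Dep S u) {i : ι} (hi : i ∉ S) : uh u i = 0 := by
  rw [uh_eq, EE_congr (h i hi)]; ring

lemma fh_sp_sm_notMem {m : ι} {T : Finset ι} (h : m ∉ T) (F : Finset ι → ℝ) :
    fh F T = (fh (sp m F) T + fh (sm m F) T) / 2 := fh_notMem h F

/-- coefficients at sets containing `m` of a function that ignores `m` vanish -/
lemma fh_sp_mem {m : ι} {T : Finset ι} (h : m ∈ T) (F : Finset ι → ℝ) : fh (sp m F) T = 0 := by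
  rw [fh_mem h]
  unfold sp
  simp [ins_er]

lemma fh_sm_mem {m : ι} {T : Finset ι} (h : m ∈ T) (F : Finset ι → ℝ) : fh (sm m F) T = 0 := by
  rw [fh_mem h]
  unfold sm
  simp

/-- covariance -/
noncomputable def Cov (F G : Finset ι → ℝ) : ℝ := EE (fun A => F A * G A) - EE F * EE G

lemma cov_split (m : ι) (H u : Finset ι → ℝ) :
    Cov H u = (1/2) * ((3/4) * Cov (sp m H) (sp m u) + (1/4) * Cov (sm m H) (sp m u))
      + (1/2) * ((1/4) * Cov (sp m H) (sm m u) + (3/4) * Cov (sm m H) (sm m u))
      + (1/2) * (EE (fun A => (sp m H A - sm m H A) / 2) * uh u m)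
      + (1/2) * EE (fun A => ((sp m H A - sm m H A) / 2) * ((sp m u A - sm m u A) / 2)) := by
  have e1 : EE (fun A => H A * u A) =
      (EE (fun A => sp m H A * sp m u A) + EE (fun A => sm m H A * sm m u A)) / 2 := EE_split m _
  have e2 : EE H = (EE (sp m H) + EE (sm m H)) / 2 := EE_split m _
  have e3 : EE u = (EE (sp m u) + EE (sm m u)) / 2 := EE_split m _
  have e4 : EE (fun A => (sp m H A - sm m H A) / 2) = (EE (sp m H) - EE (sm m H)) / 2 := by
    rw [← EE_sub]
    unfold EE
    rw [← Finset.sum_div]; ring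
  have e5 : EE (fun A => ((sp m H A - sm m H A) / 2) * ((sp m u A - sm m u A) / 2))
      = (EE (fun A => sp m H A * sp m u A) + EE (fun A => sm m H A * sm m u A)
        - EE (fun A => sm m H A * sp m u A) - EE (fun A => sp m H A * sm m u A)) / 4 := by
    rw [← EE_add, ← EE_sub, ← EE_sub, div_eq_inv_mul, ← EE_mul_left]
    refine EE_congr (fun A => ?_)
    ring
  have e6 : uh u m = (EE (sp m u) - EE (sm m u)) / 2 := uh_eq u m
  unfold Cov
  rw [e1, e2, e3, e4, e5, e6]
  ring

theorem halfW_aux : ∀ (k : ℕ) (S : Finset ι), S.card ≤ k → ∀ (H u : Finset ι → ℝ),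
    (∀ A, H A = 1 ∨ H A = -1) → Inc H → Inc u → Dep S H → Dep S u →
    (1/2) * Phi (uh u) H ≤ Cov H u := by
  intro k
  induction k with
  | zero =>
    intro S hS H u hb hH hu hdH hdu
    have hS0 : S = ∅ := Finset.card_eq_zero.mp (by omega)
    subst hS0
    have h1 : Phi (uh u) H = 0 := by
      unfold Phi
      refine Finset.sum_eq_zero (fun T _ => ?_)
      have : mx (uh u) T = 0 :=
        le_antisymm (mx_le.mpr ⟨le_rfl, fun i _ => (uh_dep hdu (by simp)).le⟩) (mx_nonneg _ _)
      rw [this, mul_zero]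
    have h2 : Cov H u = 0 := by
      unfold Cov
      rw [EE_congr (dep_empty hdH), EE_congr (dep_empty hdu),
        EE_congr (F := fun A => H A * u A) (G := fun _ => H ∅ * u ∅)
          (fun A => by rw [dep_empty hdH A, dep_empty hdu A])]
      simp only [EE_const]
      ring
    rw [h1, h2]; norm_num
  | succ k ih =>
    intro S hS H u hb hH hu hdH hdu
    by_cases hne : S.Nonempty
    swap
    · exact ih S (by rw [Finset.not_nonempty_iff_eq_empty.mp hne]; simp) H u hb hH hu hdH hdu
    obtain ⟨m, hmS, hmax⟩ := Finset.exists_max_image S (uh u) hne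
    have hmax' : ∀ i, uh u i ≤ uh u m := by
      intro i
      by_cases hi : i ∈ S
      · exact hmax i hi
      · rw [uh_dep hdu hi]; exact uh_nonneg hu m
    have hcard : (S.erase m).card ≤ k := by
      rw [Finset.card_erase_of_mem hmS]; omega
    have bp : ∀ A, sp m H A = 1 ∨ sp m H A = -1 := fun A => hb _
    have bm : ∀ A, sm m H A = 1 ∨ sm m H A = -1 := fun A => hb _
    have I1 := ih (S.erase m) hcard (sp m H) (sp m u) bp (inc_sp hH m) (inc_sp hu m)
      (dep_sp hdH m) (dep_sp hdu m)
    have I2 := ih (S.erase m) hcard (sm m H) (sp m u) bm (inc_sm hH m) (inc_sp hu m)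
      (dep_sm hdH m) (dep_sp hdu m)
    have I3 := ih (S.erase m) hcard (sp m H) (sm m u) bp (inc_sp hH m) (inc_sm hu m)
      (dep_sp hdH m) (dep_sm hdu m)
    have I4 := ih (S.erase m) hcard (sm m H) (sm m u) bm (inc_sm hH m) (inc_sm hu m)
      (dep_sm hdH m) (dep_sm hdu m)
    set c1 := uh (sp m u) with hc1
    set c2 := uh (sm m u) with hc2
    have hc1n : ∀ i, 0 ≤ c1 i := fun i => uh_nonneg (inc_sp hu m) i
    have hc2n : ∀ i, 0 ≤ c2 i := fun i => uh_nonneg (inc_sm hu m) i
    set A0 : Finset ι → ℝ := fun A => (sp m H A + sm m H A) / 2 with hA0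
    set d : Finset ι → ℝ := fun A => (sp m H A - sm m H A) / 2 with hd
    have hle : ∀ A, sm m H A ≤ sp m H A := fun A => inc_slice H hH m A
    have hd0 : ∀ A, 0 ≤ d A := by
      intro A; simp only [hd]; linarith [hle A]
    have hfA0 : ∀ T, fh A0 T = (fh (sp m H) T + fh (sm m H) T) / 2 := by
      intro T
      have : A0 = fun A => (1/2) * (sp m H A + sm m H A) := by
        funext A; simp only [hA0]; ring
      rw [this, fh_mul_left, fh_add]; ring
    have hfd : ∀ T, fh d T = (fh (sp m H) T - fh (sm m H) T) / 2 := by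
      intro T
      have : d = fun A => (1/2) * (sp m H A - sm m H A) := by
        funext A; simp only [hd]; ring
      rw [this, fh_mul_left, fh_sub]; ring
    -- mixture inequalities
    have M1 : Phi c1 A0 ≤ (3/4) * Phi c1 (sp m H) + (1/4) * Phi c1 (sm m H) := by
      have h := pair_nonneg d (fun A => 1 - sp m H A) hd0
        (fun A => by rcases bp A with h | h <;> simp [h])
        (fun A => aux1 (bp A) (bm A) (hle A)) c1 hc1n
      have e : (fun A => 1 - (1 - sp m H A)) = sp m H := by funext A; ring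
      rw [e] at h
      unfold Phi
      rw [Finset.mul_sum, Finset.mul_sum, ← Finset.sum_add_distrib, ← sub_nonneg,
        ← Finset.sum_sub_distrib]
      refine h.trans (le_of_eq (Finset.sum_congr rfl (fun T _ => ?_)))
      rw [hfA0, hfd]; ring
    have M2 : Phi c2 A0 ≤ (1/4) * Phi c2 (sp m H) + (3/4) * Phi c2 (sm m H) := by
      have h := pair_nonneg d (fun A => 1 + sm m H A) hd0
        (fun A => by rcases bm A with h | h <;> simp [h])
        (fun A => aux2 (bp A) (bm A) (hle A)) c2 hc2n
      have e : (fun A => 1 - (1 + sm m H A)) = fun A => (-1) * sm m H A := by funext A; ring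
      rw [e] at h
      simp only [fh_mul_left] at h
      unfold Phi
      rw [Finset.mul_sum, Finset.mul_sum, ← Finset.sum_add_distrib, ← sub_nonneg,
        ← Finset.sum_sub_distrib]
      refine h.trans (le_of_eq (Finset.sum_congr rfl (fun T _ => ?_)))
      rw [hfA0, hfd]; ring
    -- splitting Phi
    have hEd : ∑ T, ((fh H T) ^ 2 - (fh A0 T) ^ 2) = EE d := by
      rw [Finset.sum_sub_distrib]
      have p1 : ∑ T, (fh H T) ^ 2 = 1 := by
        have := parseval H H
        have e : EE (fun A => H A * H A) = 1 := by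
          rw [EE_congr (G := fun _ => (1:ℝ)) (fun A => by rcases hb A with h | h <;> rw [h] <;> norm_num),
            EE_const]
        rw [e] at this
        rw [← this]
        exact Finset.sum_congr rfl (fun T _ => by ring)
      have p2 : ∑ T, (fh A0 T) ^ 2 = 1 - EE d := by
        have := parseval A0 A0
        have e : EE (fun A => A0 A * A0 A) = 1 - EE d := by
          have : (1:ℝ) - EE d = EE (fun A => (1:ℝ) - d A) := by
            rw [EE_sub, EE_const]
          rw [this]
          exact EE_congr (fun A => aux3 (bp A) (bm A) (hle A))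
        rw [e] at this
        rw [← this]
        exact Finset.sum_congr rfl (fun T _ => by ring)
      rw [p1, p2]; ring
    have hPhi : Phi (uh u) H ≤ (Phi c1 A0 + Phi c2 A0) / 2 + EE d * uh u m := by
      rw [← hEd]
      unfold Phi
      rw [← Finset.sum_add_distrib, Finset.sum_div, Finset.sum_mul, ← Finset.sum_add_distrib]
      refine Finset.sum_le_sum (fun T _ => ?_)
      by_cases hmT : m ∈ T
      · have h1 : fh A0 T = 0 := by rw [hfA0, fh_sp_mem hmT, fh_sm_mem hmT]; ring
        rw [h1, mx_eq_of_max hmT (uh_nonneg hu m) hmax']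
        apply le_of_eq; ring
      · have h1 : fh H T = fh A0 T := by rw [hfA0, fh_sp_sm_notMem hmT]
        have h2 : mx (uh u) T ≤ (mx c1 T + mx c2 T) / 2 := by
          refine mx_le.mpr ⟨?_, fun i hi => ?_⟩
          · have := mx_nonneg c1 T; have := mx_nonneg c2 T; linarith
          · have him : i ≠ m := by rintro rfl; exact hmT hi
            have h3 : uh u i = (c1 i + c2 i) / 2 := uh_slice_ne u him
            have := le_mx c1 hi; have := le_mx c2 hi; linarith
        rw [h1]
        nlinarith [sq_nonneg (fh A0 T)]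
    have hdw : 0 ≤ EE (fun A => ((sp m H A - sm m H A) / 2) * ((sp m u A - sm m u A) / 2)) := by
      refine EE_nonneg (fun A => mul_nonneg ?_ ?_)
      · linarith [hle A]
      · have : sm m u A ≤ sp m u A := inc_slice u hu m A
        linarith
    rw [cov_split m H u]
    have hdd : EE (fun A => (sp m H A - sm m H A) / 2) = EE d := rfl
    rw [hdd]
    linarith

/-- **Theorem (W).** For `H` increasing `±1`-valued and `u` increasing,
`Cov(H,u) ≥ (1/2) Σ_T Ĥ(T)² max_{i∈T} û(i)`. -/
theorem halfW (H u : Finset ι → ℝ) (hb : ∀ A, H A = 1 ∨ H A = -1) (hH : Inc H) (hu : Inc u) :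
    (1/2) * Phi (uh u) H ≤ Cov H u :=
  halfW_aux _ Finset.univ le_rfl H u hb hH hu (fun i hi => absurd (Finset.mem_univ i) hi)
    (fun i hi => absurd (Finset.mem_univ i) hi)

end Pool.Agent.Helper24.HalfW
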