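import Mathlib
import Pool.Agent.Helper24.HalfW

set_option autoImplicit false
set_option linter.unusedSectionVars false

namespace Pool.Agent.Helper24.HalfW

open Finset

variable {ι : Type} [Fintype ι] [DecidableEq ι]

/-- Strassen / max-flow min-cut, functional form, by separation. -/
theorem flow_of_ineq (a b : Finset ι → ℝ) (ha : ∀ A, 0 ≤ a A) (hb : ∀ B, 0 ≤ b B)
    (h : ∀ U : Finset ι → ℝ, Inc U → ∑ B, b B * U B ≤ ∑ A, a A * U A) :
    ∃ v : Finset ι → Finset ι → ℝ, (∀ A B, 0 ≤ v A B) ∧ (∀ A, ∑ B, v A B = a A) ∧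
      (∀ B, ∑ A, v A B = b B) ∧ (∀ A B, ¬ B ⊆ A → v A B = 0) := by
  classical
  let V : Set (Finset ι → Finset ι → ℝ) :=
    {v | (∀ A B, 0 ≤ v A B) ∧ (∀ A, ∑ B, v A B = a A) ∧ (∀ A B, ¬ B ⊆ A → v A B = 0)}
  let L : (Finset ι → Finset ι → ℝ) → (Finset ι → ℝ) := fun v B => ∑ A, v A B
  have hL : Continuous L := by
    refine continuous_pi (fun B => continuous_finset_sum _ (fun A _ => ?_))
    exact (continuous_apply B).comp (continuous_apply A)
  have hVc : IsCompact V := by
    have hbig : IsCompact (Set.pi Set.univ (fun A : Finset ι => Set.pi Set.univ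
        (fun _ : Finset ι => Set.Icc (0:ℝ) (a A)))) :=
      isCompact_univ_pi (fun A => isCompact_univ_pi (fun _ => isCompact_Icc))
    refine hbig.of_isClosed_subset ?_ ?_
    · have h1 : IsClosed {v : Finset ι → Finset ι → ℝ | ∀ A B, 0 ≤ v A B} := by
        simp only [Set.setOf_forall]
        refine isClosed_iInter (fun A => isClosed_iInter (fun B => ?_))
        exact isClosed_le continuous_const ((continuous_apply B).comp (continuous_apply A))
      have h2 : IsClosed {v : Finset ι → Finset ι → ℝ | ∀ A, ∑ B, v A B = a A} := by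
        simp only [Set.setOf_forall]
        refine isClosed_iInter (fun A => ?_)
        exact isClosed_eq (continuous_finset_sum _ (fun B _ =>
          (continuous_apply B).comp (continuous_apply A))) continuous_const
      have h3 : IsClosed {v : Finset ι → Finset ι → ℝ | ∀ A B, ¬ B ⊆ A → v A B = 0} := by
        simp only [Set.setOf_forall]
        refine isClosed_iInter (fun A => isClosed_iInter (fun B => isClosed_iInter (fun _ => ?_)))
        exact isClosed_eq ((continuous_apply B).comp (continuous_apply A)) continuous_const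
      exact h1.inter (h2.inter h3)
    · rintro v ⟨hv0, hv1, -⟩ A - B -
      refine ⟨hv0 A B, ?_⟩
      rw [← hv1 A]
      exact Finset.single_le_sum (fun B _ => hv0 A B) (Finset.mem_univ B)
  have hKc : IsClosed (L '' V) := (hVc.image hL).isClosed
  have hKconv : Convex ℝ (L '' V) := by
    rintro _ ⟨v, ⟨hv0, hv1, hv2⟩, rfl⟩ _ ⟨v', ⟨hv0', hv1', hv2'⟩, rfl⟩ s t hs ht hst
    refine ⟨fun A B => s * v A B + t * v' A B, ⟨?_, ?_, ?_⟩, ?_⟩
    · intro A B
      exact add_nonneg (mul_nonneg hs (hv0 A B)) (mul_nonneg ht (hv0' A B))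
    · intro A
      rw [Finset.sum_add_distrib, ← Finset.mul_sum, ← Finset.mul_sum, hv1, hv1', ← add_mul, hst,
        one_mul]
    · intro A B hAB
      simp [hv2 A B hAB, hv2' A B hAB]
    · funext B
      simp only [L, Pi.add_apply, Pi.smul_apply, smul_eq_mul]
      rw [Finset.sum_add_distrib, ← Finset.mul_sum, ← Finset.mul_sum]
  by_contra hcon
  have hb' : b ∉ L '' V := by
    rintro ⟨v, ⟨hv0, hv1, hv2⟩, hvb⟩
    exact hcon ⟨v, hv0, hv1, fun B => congrFun hvb B, hv2⟩
  obtain ⟨φ, u0, hφ1, hφ2⟩ := geometric_hahn_banach_closed_point hKconv hKc hb'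
  let p : Finset ι → ℝ := fun B => φ (Pi.single B 1)
  have hφ : ∀ c : Finset ι → ℝ, φ c = ∑ B, c B * p B := by
    intro c
    have : c = ∑ B, c B • (Pi.single B (1:ℝ) : Finset ι → ℝ) := by
      funext B
      simp [Finset.sum_apply, Pi.single_apply]
    conv_lhs => rw [this]
    rw [map_sum]
    refine Finset.sum_congr rfl (fun B _ => ?_)
    rw [map_smul, smul_eq_mul]
  have hne : ∀ A : Finset ι, A.powerset.Nonempty := fun A => ⟨A, Finset.mem_powerset_self A⟩
  let U : Finset ι → ℝ := fun A => A.powerset.sup' (hne A) p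
  have hU : Inc U := by
    intro A B hAB
    exact Finset.sup'_mono p (Finset.powerset_mono.mpr hAB) (hne A)
  have hUp : ∀ B, p B ≤ U B := fun B => Finset.le_sup' p (Finset.mem_powerset_self B)
  have hex : ∀ A : Finset ι, ∃ B, B ⊆ A ∧ U A = p B := by
    intro A
    obtain ⟨B, hB, hB'⟩ := Finset.exists_mem_eq_sup' (hne A) p
    exact ⟨B, Finset.mem_powerset.mp hB, hB'⟩
  choose bs hbs1 hbs2 using hex
  let v : Finset ι → Finset ι → ℝ := fun A B => if B = bs A then a A else 0
  have hvV : v ∈ V := by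
    refine ⟨?_, ?_, ?_⟩
    · intro A B; simp only [v]; split_ifs; exacts [ha A, le_rfl]
    · intro A; simp [v]
    · intro A B hAB
      simp only [v]
      rw [if_neg]
      rintro rfl; exact hAB (hbs1 A)
  have h1 := hφ1 (L v) ⟨v, hvV, rfl⟩
  have h2 : φ (L v) = ∑ A, a A * U A := by
    rw [hφ]
    simp only [L, Finset.sum_mul]
    rw [Finset.sum_comm]
    refine Finset.sum_congr rfl (fun A _ => ?_)
    simp [v, hbs2]
  have h3 : φ b ≤ ∑ A, a A * U A := by
    rw [hφ]
    exact (Finset.sum_le_sum (fun B _ => mul_le_mul_of_nonneg_left (hUp B) (hb B))).trans (h U hU)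
  linarith

lemma EE_compl (G : Finset ι → ℝ) : EE (fun A => G Aᶜ) = EE G := by
  unfold EE
  congr 1
  refine Finset.sum_nbij' (fun A => Aᶜ) (fun A => Aᶜ) ?_ ?_ ?_ ?_ ?_ <;> simp

lemma xc_compl (i : ι) (A : Finset ι) : xc i Aᶜ = - xc i A := by
  unfold xc
  by_cases h : i ∈ A <;> simp [h]

lemma chi_compl (T A : Finset ι) : chi T Aᶜ = (-1) ^ T.card * chi T A := by
  unfold chi
  simp only [xc_compl]
  rw [Finset.prod_neg]

lemma compl_erase' (i : ι) (A : Finset ι) : (A.erase i)ᶜ = insert i Aᶜ := by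
  ext j; by_cases h : j = i <;> simp [h]

lemma compl_insert' (i : ι) (A : Finset ι) : (insert i A)ᶜ = Aᶜ.erase i := by
  ext j; by_cases h : j = i <;> simp [h]

/-- Sum over all sets, split at `m`. -/
lemma sum_split (m : ι) (G : Finset ι → ℝ) :
    ∑ A : Finset ι, G A
      = (∑ A : Finset ι, G (insert m A) + ∑ A : Finset ι, G (A.erase m)) / 2 := by
  have h := EE_split m G
  unfold EE at h
  have h2 : (0:ℝ) < 2 ^ (Fintype.card ι) := by positivity
  field_simp at h
  linarith

/-- **Odd functions.** For `f` odd, increasing, `±1`-valued, `u` increasing and any `i₀`: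
`E[fu] ≥ f̂(i₀) û(i₀) + (1/2) Σ_T f̂(T)² max_{i ∈ T∖i₀} û(i)`. -/
theorem odd_ineq (f u : Finset ι → ℝ) (hb : ∀ A, f A = 1 ∨ f A = -1) (hf : Inc f)
    (hodd : ∀ A, f Aᶜ = - f A) (hu : Inc u) (i₀ : ι) :
    uh f i₀ * uh u i₀ + (1/2) * ∑ T, (fh f T) ^ 2 * mx (uh u) (T.erase i₀)
      ≤ EE (fun A => f A * u A) := by
  set F := sp i₀ f with hF
  have hFm : ∀ A, sm i₀ f A = - F Aᶜ := by
    intro A
    simp only [hF, sp, sm]
    rw [← hodd, compl_insert', compl_compl]
  set s : Finset ι → ℝ := fun A => (sp i₀ u A - sm i₀ u Aᶜ) / 2 with hs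
  have hsinc : Inc s := by
    intro A B hAB
    have h1 := inc_sp hu i₀ A B hAB
    have h2 := inc_sm hu i₀ _ _ (Finset.compl_subset_compl.mpr hAB)
    simp only [hs]; linarith
  have hW := halfW F s (fun A => hb _) (inc_sp hf i₀) hsinc
  -- expectation of `f u`
  have e1 : EE (fun A => f A * u A) = EE (fun A => F A * s A) := by
    rw [EE_split i₀ (fun A => f A * u A)]
    have a1 : EE (fun A => f (A.erase i₀) * u (A.erase i₀)) = EE (fun A => - (F A * sm i₀ u Aᶜ)) := by
      rw [← EE_compl (fun A => - (F A * sm i₀ u Aᶜ))]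
      refine EE_congr (fun A => ?_)
      have := hFm A
      simp only [sm] at this ⊢
      rw [this, compl_compl]; ring
    rw [a1]
    have a2 : EE (fun A => F A * s A)
        = (EE (fun A => F A * sp i₀ u A) + EE (fun A => - (F A * sm i₀ u Aᶜ))) / 2 := by
      rw [← EE_add, div_eq_inv_mul, ← EE_mul_left]
      refine EE_congr (fun A => ?_)
      simp only [hs]; ring
    rw [a2]; rfl
  have e2 : EE F = uh f i₀ := by
    rw [uh_eq]
    have : EE (fun A => f (A.erase i₀)) = - EE F := by
      have h1 : EE (fun A => f (A.erase i₀)) = EE (fun A => (-1) * F Aᶜ) :=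
        EE_congr (fun A => by have := hFm A; simp only [sm] at this; rw [this]; ring)
      rw [h1, EE_mul_left, EE_compl]; ring
    rw [this]
    have h2 : EE (fun A => f (insert i₀ A)) = EE F := rfl
    rw [h2]; ring
  have e3 : EE s = uh u i₀ := by
    rw [uh_eq]
    have h1 : EE s = (EE (sp i₀ u) - EE (fun A => sm i₀ u Aᶜ)) / 2 := by
      rw [← EE_sub, div_eq_inv_mul, ← EE_mul_left]
      refine EE_congr (fun A => ?_)
      simp only [hs]; ring
    rw [h1, EE_compl]; rfl
  have e4 : ∀ i, i ≠ i₀ → uh s i = uh u i := by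
    intro i hi
    rw [uh_slice_ne u hi]
    unfold uh
    have h1 : fh s {i} = (fh (sp i₀ u) {i} - fh (fun A => sm i₀ u Aᶜ) {i}) / 2 := by
      have : s = fun A => (1/2) * (sp i₀ u A - sm i₀ u Aᶜ) := by
        funext A; simp only [hs]; ring
      rw [this, fh_mul_left, fh_sub]; ring
    have h2 : fh (fun A => sm i₀ u Aᶜ) {i} = - fh (sm i₀ u) {i} := by
      unfold fh
      rw [← EE_compl (fun A => sm i₀ u A * chi {i} A), ← neg_one_mul (EE _), ← EE_mul_left]
      refine EE_congr (fun A => ?_)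
      simp only [chi_compl]
      simp
    rw [h1, h2]
    have h3 : fh (sp i₀ u) {i} = fh (fun A => u (insert i₀ A)) {i} := rfl
    have h4 : fh (sm i₀ u) {i} = fh (fun A => u (A.erase i₀)) {i} := rfl
    rw [h3, h4]; ring
  -- Fourier coefficients of `F`
  have e5 : ∀ T : Finset ι, i₀ ∉ T → (fh F T) ^ 2 = (fh f T) ^ 2 + (fh f (insert i₀ T)) ^ 2 := by
    intro T hT
    have h1 : fh f T = (fh F T + fh (sm i₀ f) T) / 2 := fh_sp_sm_notMem hT f
    have h2 : fh f (insert i₀ T) = (fh F T - fh (sm i₀ f) T) / 2 := by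
      have := fh_mem (Finset.mem_insert_self i₀ T) f
      rw [Finset.erase_insert hT] at this
      exact this
    have h3 : (fh (sm i₀ f) T) ^ 2 = (fh F T) ^ 2 := by
      have : fh (sm i₀ f) T = - ((-1) ^ T.card * fh F T) := by
        unfold fh
        rw [← EE_compl (fun A => F A * chi T A), ← neg_one_mul, ← EE_mul_left, ← EE_mul_left]
        refine EE_congr (fun A => ?_)
        rw [hFm, chi_compl]
        have : ((-1:ℝ) ^ T.card) * (-1) ^ T.card = 1 := by
          rw [← mul_pow]; norm_num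
        linear_combination (F Aᶜ * chi T A) * this
      rw [this, neg_sq, mul_pow, ← pow_mul, mul_comm T.card 2, pow_mul]
      norm_num
    rw [h1, h2]
    linear_combination (-1/2) * h3
  have e6 : ∑ T, (fh f T) ^ 2 * mx (uh u) (T.erase i₀) = Phi (uh s) F := by
    unfold Phi
    rw [sum_split i₀ (fun T => (fh f T) ^ 2 * mx (uh u) (T.erase i₀)),
      sum_split i₀ (fun T => (fh F T) ^ 2 * mx (uh s) T)]
    rw [← Finset.sum_add_distrib, ← Finset.sum_add_distrib]
    congr 1
    refine Finset.sum_congr rfl (fun T _ => ?_)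
    have h0 : fh F (insert i₀ T) = 0 := fh_sp_mem (Finset.mem_insert_self i₀ T) f
    have h1 := e5 (T.erase i₀) (Finset.notMem_erase i₀ T)
    rw [ins_er] at h1
    have h2 : mx (uh s) (T.erase i₀) = mx (uh u) (T.erase i₀) :=
      mx_congr (fun i hi => e4 i (Finset.ne_of_mem_erase hi))
    have h3 : (T.erase i₀).erase i₀ = T.erase i₀ := by simp
    rw [h0, er_ins, h1, h2, h3]; ring
  rw [e6, e1]
  unfold Cov at hW
  rw [e2, e3] at hW
  linarith

end Pool.Agent.Helper24.HalfW
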